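import Pool.Agent.Helper57.NX.Defs2
import Pool.Agent.Helper5.NX.Basic
import Pool.Agent.Helper85.NX.Form

/-!
# Project NX, NX-14, part A: blocks, functions constant on blocks
-/

set_option autoImplicit false

open Finset
open scoped BigOperators ComplexConjugate

namespace Pool.Agent.Helper57.NX

noncomputable section

section Blocks64
variable {N : ℕ} [NeZero N]

/-- `p` is the last point of a block of length `X` (counted from `r`), or the last point of the
circle. -/
def chg64 (X : ℕ) (r p : ZMod N) : Prop := (p - r).val + 1 = N ∨ X ∣ (p - r).val + 1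

lemma val_succ64 {r p : ZMod N} (h : (p - r).val + 1 ≠ N) :
    (p + 1 - r).val = (p - r).val + 1 := by
  have hlt := ZMod.val_lt (p - r)
  have hN1 : N ≠ 1 := by
    rintro rfl
    omega
  have h1 : (1 : ZMod N).val = 1 := ZMod.val_one'' hN1
  have h2 : p + 1 - r = (p - r) + 1 := by ring
  rw [h2, ZMod.val_add_of_lt (by rw [h1]; omega), h1]

lemma nochg64 {X : ℕ} {r p : ZMod N} (y : ℕ)
    (h : ∀ t < y, ¬ chg64 X r (p + (t : ZMod N))) :
    (p + (y : ZMod N) - r).val = (p - r).val + y ∧
      (p + (y : ZMod N) - r).val / X = (p - r).val / X := by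
  induction y with
  | zero => simp
  | succ y ih =>
    obtain ⟨h1, h2⟩ := ih fun t ht => h t (by omega)
    have h3 := h y (by omega)
    unfold chg64 at h3
    rw [not_or] at h3
    have h4 := val_succ64 h3.1
    have h5 : p + ((y + 1 : ℕ) : ZMod N) - r = p + (y : ZMod N) + 1 - r := by push_cast; ring
    rw [h5, h4]
    refine ⟨by omega, ?_⟩
    rw [Nat.succ_div_of_not_dvd h3.2, h2]

lemma chg_count64 {X : ℕ} (hX : 1 ≤ X) (hXN : X ≤ N) (r x : ZMod N) [DecidablePred (chg64 X r)] :
    #((range X).filter fun j : ℕ => chg64 X r (x + (j : ZMod N))) ≤ 2 := by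
  classical
  set v := (x - r).val with hv
  have hvN : v < N := ZMod.val_lt _
  have hsub : ((range X).filter fun j : ℕ => chg64 X r (x + (j : ZMod N))) ⊆
      ((range X).filter fun j : ℕ => v + j + 1 = N) ∪
        ((range X).filter fun j : ℕ => X ∣ v + j + 1) := by
    intro j hj
    rw [mem_filter, mem_range] at hj
    obtain ⟨hjX, hj⟩ := hj
    have hjN : j < N := by omega
    have e1 : x + (j : ZMod N) - r = (x - r) + (j : ZMod N) := by ring
    have e2 : (x + (j : ZMod N) - r).val = (v + j) % N := by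
      rw [e1, ZMod.val_add, ZMod.val_natCast, Nat.mod_eq_of_lt hjN]
    unfold chg64 at hj
    rw [e2] at hj
    rw [mem_union, mem_filter, mem_filter, mem_range]
    rcases lt_or_ge (v + j) N with hlt | hge
    · rw [Nat.mod_eq_of_lt hlt] at hj
      rcases hj with hj | hj
      · exact Or.inl ⟨hjX, hj⟩
      · exact Or.inr ⟨hjX, hj⟩
    · exfalso
      have e3 : (v + j) % N = v + j - N := by
        rw [Nat.mod_eq_sub_mod hge, Nat.mod_eq_of_lt (by omega)]
      rw [e3] at hj
      rcases hj with hj | hj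
      · omega
      · have := Nat.le_of_dvd (by omega) hj
        omega
  refine (card_le_card hsub).trans ((card_union_le _ _).trans ?_)
  have h1 : #((range X).filter fun j : ℕ => v + j + 1 = N) ≤ 1 := by
    rw [card_le_one]
    intro a ha b hb
    rw [mem_filter] at ha hb
    omega
  have h2 : #((range X).filter fun j : ℕ => X ∣ v + j + 1) ≤ 1 := by
    rw [card_le_one]
    intro a ha b hb
    rw [mem_filter, mem_range] at ha hb
    have key : ∀ a b : ℕ, a ≤ b → b < X → X ∣ v + a + 1 → X ∣ v + b + 1 → a = b := by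
      intro a b hab hb h1 h2
      have h3 : X ∣ b - a := by
        have := Nat.dvd_sub h2 h1
        have e : v + b + 1 - (v + a + 1) = b - a := by omega
        rwa [e] at this
      by_contra hne
      have := Nat.le_of_dvd (by omega) h3
      omega
    rcases le_total a b with hab | hab
    · exact key a b hab hb.1 ha.2 hb.2
    · exact (key b a hab ha.1 hb.2 ha.2).symm
  omega

/-- variation from windows -/
lemma tv_of_window64 {B : ℝ} {X : ℕ} (hX : 1 ≤ X) {f : ZMod N → ℂ}
    (h : ∀ x : ZMod N, ∑ j ∈ range X, ‖f (x + (j : ZMod N) + 1) - f (x + (j : ZMod N))‖ ≤ B) :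
    TV B X f := by
  have hB : 0 ≤ B := (sum_nonneg fun _ _ => norm_nonneg _).trans (h 0)
  have key : ∀ (n : ℕ) (x : ZMod N),
      ∑ j ∈ range (n * X), ‖f (x + (j : ZMod N) + 1) - f (x + (j : ZMod N))‖ ≤ n * B := by
    intro n
    induction n with
    | zero => intro x; simp
    | succ n ih =>
      intro x
      rw [Nat.succ_mul, sum_range_add]
      have h1 := ih x
      have h2 := h (x + ((n * X : ℕ) : ZMod N))
      have h3 : ∑ j ∈ range X, ‖f (x + ((n * X + j : ℕ) : ZMod N) + 1) -
          f (x + ((n * X + j : ℕ) : ZMod N))‖ =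
          ∑ j ∈ range X, ‖f (x + ((n * X : ℕ) : ZMod N) + (j : ZMod N) + 1) -
            f (x + ((n * X : ℕ) : ZMod N) + (j : ZMod N))‖ := by
        refine sum_congr rfl fun j _ => ?_
        rw [Nat.cast_add, ← add_assoc]
      rw [h3]
      push_cast
      push_cast at h1 h2
      linarith
  intro x l
  have hX0 : (0 : ℝ) < X := by exact_mod_cast hX
  have hl : l ≤ (l / X + 1) * X := by
    have h5 := Nat.div_add_mod l X
    have h6 := Nat.mod_lt l hX
    rw [Nat.add_mul, mul_comm (l / X) X]
    omega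
  refine (sum_le_sum_of_subset_of_nonneg (range_mono hl) fun _ _ _ => norm_nonneg _).trans ?_
  refine (key (l / X + 1) x).trans ?_
  have h4 : ((l / X : ℕ) : ℝ) ≤ (l : ℝ) / X := Nat.cast_div_le
  push_cast
  nlinarith

open Classical in
/-- functions which are constant on blocks -/
lemma tv_block64 {X : ℕ} (hX : 1 ≤ X) (hXN : X ≤ N) (r : ZMod N) (ψ : ℕ → ℂ)
    (hψ : ∀ j, ‖ψ j‖ ≤ 1) : TV 4 X (fun z : ZMod N => ψ ((z - r).val / X)) := by
  refine tv_of_window64 hX fun x => ?_
  have h1 : ∀ p : ZMod N, ‖ψ ((p + 1 - r).val / X) - ψ ((p - r).val / X)‖ ≤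
      if chg64 X r p then (2 : ℝ) else 0 := by
    intro p
    split_ifs with hp
    · exact (norm_sub_le _ _).trans (by have := hψ ((p + 1 - r).val / X); have := hψ ((p - r).val / X); linarith)
    · have h2 := nochg64 (X := X) (r := r) (p := p) 1 (by
        intro t ht
        obtain rfl : t = 0 := by omega
        simpa using hp)
      simp only [Nat.cast_one] at h2
      rw [h2.2, sub_self, norm_zero]
  refine (sum_le_sum fun (j : ℕ) _ => h1 (x + (j : ZMod N))).trans ?_
  rw [← sum_filter, sum_const, nsmul_eq_mul]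
  have h3 := chg_count64 hX hXN r x
  have h4 : ((#((range X).filter fun j : ℕ => chg64 X r (x + (j : ZMod N))) : ℕ) : ℝ) ≤ 2 := by
    exact_mod_cast h3
  linarith

open Classical in
lemma expect_chg64 {X : ℕ} (hX : 1 ≤ X) (hXN : X ≤ N) (r : ZMod N) :
    𝔼 z : ZMod N, (if chg64 X r z then (1 : ℝ) else 0) ≤ 2 / X := by
  have hX0 : (0 : ℝ) < X := by exact_mod_cast hX
  have h1 : 𝔼 j ∈ range X, 𝔼 z : ZMod N, (if chg64 X r (z + (j : ZMod N)) then (1 : ℝ) else 0) =
      𝔼 z : ZMod N, (if chg64 X r z then (1 : ℝ) else 0) := by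
    rw [expect_congr rfl fun (j : ℕ) _ => expect_shift
      (fun z => if chg64 X r z then (1 : ℝ) else 0) (j : ZMod N)]
    exact expect_const (nonempty_range_iff.2 (by omega)) _
  rw [← h1, expect_comm]
  refine expect_le_of5 _ _ (by positivity) fun z _ => ?_
  rw [expect_eq_sum_div_card, card_range, ← sum_filter, sum_const, nsmul_eq_mul, mul_one]
  refine div_le_div_of_nonneg_right ?_ hX0.le
  exact_mod_cast chg_count64 hX hXN r z

open Classical in
/-- few points are close to the end of a block -/
lemma expect_exc64 {X : ℕ} (hX : 1 ≤ X) (hXN : X ≤ N) (r : ZMod N) (Y : ℕ) :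
    𝔼 z : ZMod N, (if ∃ t < Y, chg64 X r (z + (t : ZMod N)) then (1 : ℝ) else 0) ≤ Y * (2 / X) := by
  have h1 : 𝔼 z : ZMod N, (if ∃ t < Y, chg64 X r (z + (t : ZMod N)) then (1 : ℝ) else 0) ≤
      𝔼 z : ZMod N, ∑ t ∈ range Y, (if chg64 X r (z + (t : ZMod N)) then (1 : ℝ) else 0) := by
    refine expect_le_expect fun z _ => ?_
    split_ifs with h
    · obtain ⟨t, ht, h⟩ := h
      refine le_trans ?_ (single_le_sum (f := fun t : ℕ =>
        (if chg64 X r (z + (t : ZMod N)) then (1 : ℝ) else 0)) (fun t _ => ?_) (mem_range.2 ht))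
      · simp only [if_pos h, le_refl]
      · split_ifs <;> norm_num
    · exact sum_nonneg fun t _ => by split_ifs <;> norm_num
  refine h1.trans ?_
  rw [expect_sum_comm]
  have h2 := sum_le_card_nsmul (range Y) (fun t : ℕ =>
    𝔼 z : ZMod N, (if chg64 X r (z + (t : ZMod N)) then (1 : ℝ) else 0)) (2 / X) fun t _ => by
      rw [expect_shift (fun z => if chg64 X r z then (1 : ℝ) else 0) (t : ZMod N)]
      exact expect_chg64 hX hXN r
  rwa [card_range, nsmul_eq_mul] at h2

end Blocks64

end

end Pool.Agent.Helper57.NX
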