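import Pool.Agent.Helper64.NX.LpBins

/-!
# Project NX, NX-14: alignment of the frequencies of block phases on long cells
-/

set_option autoImplicit false

open Finset
open scoped BigOperators ComplexConjugate

namespace Pool.Agent.Helper57.NX

noncomputable section

lemma Good.mono64 {m N : ℕ} {S : Sys m} {c : Fin m → ℝ} {x x' : ℝ} (hD : 1 ≤ S.D)
    (h : Good S c N x) (hx : x ≤ x') : Good S c N x' where
  ρ0 := h.ρ0
  ρ1 := h.ρ1
  Q1 := h.Q1
  Q2 := h.Q2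
  P1 i := (mul_le_mul_of_nonneg_left (Real.rpow_le_rpow_of_exponent_le hD (by linarith))
    (Nat.cast_nonneg _)).trans (h.P1 i)
  P2 i := (h.P2 i).trans (mul_le_mul_of_nonneg_left
    (Real.rpow_le_rpow_of_exponent_le hD (by linarith)) (Nat.cast_nonneg _))
  N1 i := (h.N1 i).trans (mul_le_mul_of_nonneg_left
    (Real.rpow_le_rpow_of_exponent_le hD hx) (Nat.cast_nonneg _))
  N2 := h.N2
  u1 := h.u1
  u2 := h.u2
  T1 := (Real.rpow_le_rpow_of_exponent_le hD (by linarith)).trans h.T1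

section
variable {m N : ℕ} [NeZero N]

lemma form_add64 (S : Sys (m + 1)) (c : Fin (m + 1) → ℝ) (f0 : ZMod N → ℂ)
    (f : Fin m → ZMod N → ℂ) (u v : ZMod N → ℂ) :
    form S c 1 f0 (Fin.snoc (α := fun _ => ZMod N → ℂ) f (fun x => u x + v x)) =
      form S c 1 f0 (Fin.snoc (α := fun _ => ZMod N → ℂ) f u) +
      form S c 1 f0 (Fin.snoc (α := fun _ => ZMod N → ℂ) f v) := by
  have h1 := form_update_add S c 1 f0 (Fin.snoc (α := fun _ => ZMod N → ℂ) f u) (Fin.last m) u v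
  rwa [snoc_update64, snoc_update64, snoc_update64] at h1

lemma form_zero64 (S : Sys (m + 1)) (c : Fin (m + 1) → ℝ) (f0 : ZMod N → ℂ)
    (f : Fin m → ZMod N → ℂ) :
    form S c 1 f0 (Fin.snoc (α := fun _ => ZMod N → ℂ) f (fun _ => 0)) = 0 := by
  have h := form_add64 S c f0 f (fun _ => 0) (fun _ => 0)
  simp only [add_zero] at h
  exact left_eq_add.1 h

lemma form_sum64 (S : Sys (m + 1)) (c : Fin (m + 1) → ℝ) (f0 : ZMod N → ℂ)
    (f : Fin m → ZMod N → ℂ) (n : ℕ) (u : ℕ → ZMod N → ℂ) :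
    ‖form S c 1 f0 (Fin.snoc (α := fun _ => ZMod N → ℂ) f (fun x => ∑ s ∈ range n, u s x))‖ ≤
      ∑ s ∈ range n, ‖form S c 1 f0 (Fin.snoc (α := fun _ => ZMod N → ℂ) f (u s))‖ := by
  induction n with
  | zero =>
    simp only [range_zero, sum_empty]
    rw [form_zero64, norm_zero]
  | succ n ih =>
    simp only [sum_range_succ]
    rw [form_add64]
    exact (norm_add_le _ _).trans (add_le_add ih le_rfl)

end

theorem lp_align (m : ℕ) (c : Fin (m + 1) → ℝ) (s ε : ℝ) (hs : 0 ≤ s) (hε : 0 < ε)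
    (hT : TopP m c s ε) :
    ∃ x0 : ℝ, 0 < x0 ∧ ∃ C : ℕ, ∃ σ : ℝ, 0 < σ ∧ ∃ D0 : ℝ,
    ∀ (S : Sys (m + 1)) (N : ℕ) [NeZero N], D0 ≤ S.D → Good S c N x0 →
    ∀ δ : ℝ, S.D ^ (-σ) ≤ δ → δ ≤ 1 / 2 →
    ∀ X : ℕ, S.Q ≤ X → S.Q * S.D ^ (s - σ) ≤ (X : ℝ) →
    ∀ q0 : ℕ, 1 ≤ q0 → (X : ℝ) * q0 ≤ S.P (Fin.last m) * S.D ^ (-ε) →
    ∀ (f0 : ZMod N → ℂ) (f : Fin m → ZMod N → ℂ),
    Adm δ⁻¹ S.Q f0 → (∀ i, Adm δ⁻¹ S.Q (f i)) →
    ∀ (r : ZMod N) (cc : ℕ → ℂ) (φ : ℕ → ℝ), (∀ j, ‖cc j‖ ≤ 1) → (∀ j, |φ j| ≤ δ⁻¹ / S.Q) →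
    δ ≤ ‖form S c 1 f0 (Fin.snoc (α := fun _ => ZMod N → ℂ) f (bphase X r cc φ))‖ →
    ∃ (cc' : ℕ → ℂ) (θ : ℕ → ℝ), (∀ j, cc' j = cc j ∨ cc' j = 0) ∧
      (∀ j, cc' j ≠ 0 → |φ j - θ (j / q0)| ≤ δ⁻¹ ^ C / X) ∧
      δ ^ C ≤ ‖form S c 1 f0 (Fin.snoc (α := fun _ => ZMod N → ℂ) f (bphase X r cc' φ))‖ := by
  obtain ⟨xT, hxT, CT, σT, hσT, DT, HT⟩ := hT
  refine ⟨min xT ε, lt_min hxT hε, 12 * CT + 20, min (σT / 6) (1 / 9),
    lt_min (by positivity) (by norm_num), max DT 4, ?_⟩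
  intro S N _ hD hGood δ hδ1 hδ2 X hQX hX q0 hq hXq f0 f hf0 hf r cc φ hcc hφ hform
  set σ := min (σT / 6) (1 / 9) with hσ
  have hσ0 : 0 < σ := lt_min (by positivity) (by norm_num)
  have hσa : 6 * σ ≤ σT := by have := min_le_left (σT / 6) (1 / 9 : ℝ); rw [← hσ] at this; linarith
  have hσb : 9 * σ ≤ 1 := by have := min_le_right (σT / 6) (1 / 9 : ℝ); rw [← hσ] at this; linarith
  have hD4 : 4 ≤ S.D := (le_max_right _ _).trans hD
  have hDT : DT ≤ S.D := (le_max_left _ _).trans hD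
  have hD0 : 0 < S.D := by linarith
  have hD1 : 1 ≤ S.D := by linarith
  have hδ0 : 0 < δ := (Real.rpow_pos_of_pos hD0 _).trans_le hδ1
  have hδi : 2 ≤ δ⁻¹ := by
    rw [le_inv_comm₀ (by norm_num) hδ0]
    linarith
  have hδi0 : 0 < δ⁻¹ := by positivity
  -- powers of δ
  have hpow : ∀ (n : ℕ), S.D ^ (-(n * σ)) ≤ δ ^ n := by
    intro n
    have h := pow_le_pow_left₀ (Real.rpow_nonneg hD0.le _) hδ1 n
    rw [← Real.rpow_natCast (S.D ^ (-σ)) n, ← Real.rpow_mul hD0.le] at h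
    refine le_trans (le_of_eq ?_) h
    congr 1
    ring
  have hQ : (S.D : ℝ) ^ (2 : ℝ) ≤ S.Q := hGood.Q1
  have hQ0 : (0 : ℝ) < S.Q := (Real.rpow_pos_of_pos hD0 _).trans_le hQ
  have hQX' : (S.Q : ℝ) ≤ X := by exact_mod_cast hQX
  have hX0 : (0 : ℝ) < X := hQ0.trans_le hQX'
  have hX1 : 1 ≤ X := by exact_mod_cast hX0
  -- sizes
  have hL : ((X * q0 : ℕ) : ℝ) ≤ S.P (Fin.last m) * S.D ^ (-ε) := by push_cast; exact hXq
  have hLN : X * q0 ≤ N := by
    have h1 := hGood.N1 (Fin.last m)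
    have h2 : S.P (Fin.last m) * S.D ^ (-ε) ≤ N * S.D ^ (min xT ε) * S.D ^ (-ε) :=
      mul_le_mul_of_nonneg_right h1 (Real.rpow_nonneg hD0.le _)
    have h3 : (N : ℝ) * S.D ^ (min xT ε) * S.D ^ (-ε) ≤ N := by
      rw [mul_assoc, ← Real.rpow_add hD0]
      have h4 : S.D ^ (min xT ε + -ε) ≤ 1 :=
        Real.rpow_le_one_of_one_le_of_nonpos hD1 (by have := min_le_right xT ε; linarith)
      exact mul_le_of_le_one_right (Nat.cast_nonneg _) h4
    exact_mod_cast hL.trans (h2.trans h3)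
  have hL1 : 1 ≤ X * q0 := Nat.mul_pos hX1 hq
  have hXN : X ≤ N := (Nat.le_mul_of_pos_right X hq).trans hLN
  -- Y
  have h9 : 4 ≤ δ ^ 9 * X := by
    have h1 := hpow 9
    have h2 : S.D ^ (-(1 : ℝ)) ≤ S.D ^ (-(((9 : ℕ) : ℝ) * σ)) :=
      Real.rpow_le_rpow_of_exponent_le hD1 (by push_cast; linarith)
    have h3 : S.D ^ (-(1 : ℝ)) * S.D ^ (2 : ℝ) = S.D := by
      rw [← Real.rpow_add hD0]
      norm_num
    calc (4 : ℝ) ≤ S.D := hD4
      _ = S.D ^ (-(1 : ℝ)) * S.D ^ (2 : ℝ) := h3.symm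
      _ ≤ δ ^ 9 * X := mul_le_mul (h2.trans h1) (hQ.trans hQX') (Real.rpow_nonneg hD0.le _)
          (by positivity)
  set Y := ⌊δ ^ 9 * X⌋₊ with hYdef
  have hYle : (Y : ℝ) ≤ δ ^ 9 * X := Nat.floor_le (by positivity)
  have hYge : δ ^ 9 * X - 1 ≤ Y := by
    have := Nat.lt_floor_add_one (δ ^ 9 * X)
    rw [← hYdef] at this
    linarith
  have hY1 : 1 ≤ Y := by
    rw [hYdef, Nat.one_le_floor_iff]
    linarith
  have hY10 : δ ^ 10 * X ≤ Y := by
    have h1 : δ ^ 10 * X = δ * (δ ^ 9 * X) := by ring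
    have h2 : δ * (δ ^ 9 * X) ≤ 1 / 2 * (δ ^ 9 * X) :=
      mul_le_mul_of_nonneg_right hδ2 (by positivity)
    linarith
  have hY0 : (0 : ℝ) < Y := by exact_mod_cast hY1
  -- w0, η
  set w0 : ℝ := δ⁻¹ ^ (6 * CT + 16) / X with hw0def
  have hw0 : 0 < w0 := by positivity
  set η : ℝ := δ ^ (12 * CT + 17) with hηdef
  have hη : 0 < η := by positivity
  have hφd : ∀ j j', |φ j - φ j'| ≤ 1 / 2 := by
    intro j j'
    have h1 : |φ j - φ j'| ≤ δ⁻¹ / S.Q + δ⁻¹ / S.Q :=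
      (abs_sub _ _).trans (add_le_add (hφ j) (hφ j'))
    have h2 : δ⁻¹ ≤ S.D := by
      rw [inv_le_comm₀ hδ0 hD0]
      refine le_trans ?_ hδ1
      rw [← Real.rpow_neg_one]
      exact Real.rpow_le_rpow_of_exponent_le hD1 (by linarith)
    have h3 : δ⁻¹ / S.Q ≤ 1 / 4 := by
      rw [div_le_iff₀ hQ0]
      rw [Real.rpow_two] at hQ
      have h4 : 4 * S.D ≤ S.D ^ 2 := by
        rw [sq]
        exact mul_le_mul_of_nonneg_right hD4 hD0.le
      linarith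
    linarith
  have hf0b : ∀ x, ‖f0 x‖ ≤ 1 := hf0.bdd
  have hfb : ∀ i x, ‖f i x‖ ≤ 1 := fun i => (hf i).bdd
  have hδ6i : 64 ≤ (δ ^ 6)⁻¹ := by
    rw [← inv_pow]
    calc (64 : ℝ) = 2 ^ 6 := by norm_num
      _ ≤ δ⁻¹ ^ 6 := pow_le_pow_left₀ (by norm_num) hδi 6
  have hδ6i' : δ⁻¹ + δ⁻¹ ≤ (δ ^ 6)⁻¹ := by
    rw [← inv_pow]
    have h1 : δ⁻¹ ^ 2 ≤ δ⁻¹ ^ 6 := pow_le_pow_right₀ (by linarith) (by norm_num)
    have h2 : 2 * δ⁻¹ ≤ δ⁻¹ ^ 2 := by
      rw [sq]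
      exact mul_le_mul_of_nonneg_right hδi hδi0.le
    linarith
  have hGb : ∀ y y' : ℕ, ∀ cc' : ℕ → ℂ, (∀ j, ‖cc' j‖ ≤ 1) →
      Adm (δ ^ 6)⁻¹ X (Gf64 X r cc' φ y y') := by
    intro y y' cc' hcc'
    have h1 : Adm 4 (X : ℝ) (Gf64 X r cc' φ y y') :=
      ⟨fun z => norm_gcoef64 hcc' φ y y' _,
        tv_block64 hX1 hXN r (gcoef64 cc' φ y y') fun j => norm_gcoef64 hcc' φ y y' j⟩
    exact h1.mono (by linarith) hX0 le_rfl
  -- the unpopular part
  have hrest : ‖form S c 1 f0 (Fin.snoc (α := fun _ => ZMod N → ℂ) f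
      (bphase X r (ccr64 cc φ w0 η q0) φ))‖ < δ / 2 := by
    by_contra hcon
    rw [not_lt] at hcon
    have hccr : ∀ j, ‖ccr64 cc φ w0 η q0 j‖ ≤ 1 := norm_ccr64 cc φ w0 η q0 hcc
    have hpos : δ ^ 5 ≤ (δ / 2) ^ 2 - 4 * Y / X - δ ^ 6 := by
      have h1 : 4 * (Y : ℝ) / X ≤ 4 * δ ^ 9 := by
        rw [div_le_iff₀ hX0]
        linarith
      have h2 : δ ^ 9 ≤ δ ^ 2 * (1 / 2) ^ 7 := by
        have h3 : δ ^ 9 = δ ^ 2 * δ ^ 7 := by ring
        rw [h3]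
        exact mul_le_mul_of_nonneg_left (pow_le_pow_left₀ hδ0.le hδ2 7) (by positivity)
      have h3 : δ ^ 6 ≤ δ ^ 2 * (1 / 2) ^ 4 := by
        have h3 : δ ^ 6 = δ ^ 2 * δ ^ 4 := by ring
        rw [h3]
        exact mul_le_mul_of_nonneg_left (pow_le_pow_left₀ hδ0.le hδ2 4) (by positivity)
      have h4 : δ ^ 5 ≤ δ ^ 2 * (1 / 2) ^ 3 := by
        have h3 : δ ^ 5 = δ ^ 2 * δ ^ 3 := by ring
        rw [h3]
        exact mul_le_mul_of_nonneg_left (pow_le_pow_left₀ hδ0.le hδ2 3) (by positivity)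
      have h5 : 0 < δ ^ 2 := by positivity
      have h6 : (δ / 2) ^ 2 = δ ^ 2 / 4 := by ring
      rw [h6]
      norm_num at h2 h3 h4
      linarith
    have hkey := key64 S c f0 hf0b f hfb hX1 hXN r hccr hφd hY1 (X * q0) hw0
      (δ1 := δ / 2) (δ6 := δ ^ 6) (δT := (δ ^ 6) ^ CT) (by positivity) (by positivity)
      (by positivity) ((by positivity : (0 : ℝ) ≤ δ ^ 5).trans hpos) (by
        intro y _ y' _ hyy
        have h1 := HT S N hDT (hGood.mono64 hD1 (min_le_left _ _)) (δ ^ 6) (by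
          refine le_trans ?_ (hpow 6)
          exact Real.rpow_le_rpow_of_exponent_le hD1 (by push_cast; linarith)) (by
          refine (pow_le_pow_left₀ hδ0.le hδ2 6).trans (by norm_num)) X hQX' (by
          refine le_trans ?_ hX
          refine mul_le_mul_of_nonneg_left ?_ hQ0.le
          exact Real.rpow_le_rpow_of_exponent_le hD1 (by linarith))
          _ _ (((hf0.shift (y : ZMod N)).mul (hf0.shift (y' : ZMod N)).cnj).mono hδ6i' hQ0 le_rfl)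
          (by
            intro i
            refine Fin.lastCases ?_ (fun i => ?_) i
            · rw [Fin.snoc_last]
              exact (hGb y y' _ hccr).mono le_rfl hQ0 hQX'
            · rw [Fin.snoc_castSucc]
              exact (((hf i).shift (y : ZMod N)).mul ((hf i).shift (y' : ZMod N)).cnj).mono
                hδ6i' hQ0 le_rfl)
          (by rw [Fin.snoc_last]; exact hGb y y' _ hccr) hyy (X * q0) hL1 hL
        rwa [Fin.snoc_last] at h1) hcon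
    have hr := rest64 cc φ w0 η q0 hX1 hq hη.le hw0 rfl hLN r
    have h1 : δ ^ (12 * CT + 10) ≤ ((δ ^ 6) ^ CT * ((δ / 2) ^ 2 - 4 * Y / X - δ ^ 6)) ^ 2 := by
      have h2 : δ ^ (12 * CT + 10) = ((δ ^ 6) ^ CT * δ ^ 5) ^ 2 := by
        rw [← pow_mul, ← pow_add, ← pow_mul]
        congr 1
        ring
      rw [h2]
      exact pow_le_pow_left₀ (by positivity) (mul_le_mul_of_nonneg_left hpos (by positivity)) 2
    have h2 : (1 / (2 * Y * w0)) ^ 2 ≤ δ ^ (12 * CT + 10) / 16 := by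
      have h3 : 2 * δ⁻¹ ^ (6 * CT + 6) ≤ 2 * Y * w0 := by
        have h4 : δ ^ 10 * X * w0 = δ⁻¹ ^ (6 * CT + 6) := by
          rw [hw0def]
          have h5 : δ⁻¹ ^ (6 * CT + 16) = δ⁻¹ ^ (6 * CT + 6) * δ⁻¹ ^ 10 := by
            rw [← pow_add]
          rw [h5]
          field_simp
        have h6 := mul_le_mul_of_nonneg_right hY10 hw0.le
        rw [h4] at h6
        linarith
      have h4 : 1 / (2 * Y * w0) ≤ δ ^ (6 * CT + 6) / 2 := by
        rw [div_le_div_iff₀ (by positivity) (by norm_num)]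
        have h5 : δ ^ (6 * CT + 6) * δ⁻¹ ^ (6 * CT + 6) = 1 := by
          rw [← mul_pow, mul_inv_cancel₀ hδ0.ne', one_pow]
        have h6 := mul_le_mul_of_nonneg_left h3 (by positivity : (0 : ℝ) ≤ δ ^ (6 * CT + 6))
        linarith
      have h5 := pow_le_pow_left₀ (by positivity) h4 2
      have h6 : (δ ^ (6 * CT + 6) / 2) ^ 2 = δ ^ 2 * δ ^ (12 * CT + 10) / 4 := by
        rw [div_pow, ← pow_mul, ← pow_add]
        congr 1
        · congr 1
          ring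
        · norm_num
      rw [h6] at h5
      have h7 : δ ^ 2 ≤ 1 / 4 := (pow_le_pow_left₀ hδ0.le hδ2 2).trans (by norm_num)
      have h8 : 0 < δ ^ (12 * CT + 10) := by positivity
      have h9 := mul_le_mul_of_nonneg_right h7 h8.le
      linarith
    have h3 : 9 * η ≤ 9 / 128 * δ ^ (12 * CT + 10) := by
      have h4 : η = δ ^ 7 * δ ^ (12 * CT + 10) := by
        rw [hηdef, ← pow_add]
        congr 1
        ring
      have h5 : δ ^ 7 ≤ 1 / 128 := (pow_le_pow_left₀ hδ0.le hδ2 7).trans (by norm_num)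
      have h8 : 0 < δ ^ (12 * CT + 10) := by positivity
      rw [h4]
      have h9 := mul_le_mul_of_nonneg_right h5 h8.le
      linarith
    have h8 : 0 < δ ^ (12 * CT + 10) := by positivity
    linarith
  -- the popular part
  have hsplit : ∀ x, bphase X r cc φ x =
      bphase X r (ccp64 cc φ w0 η q0) φ x + bphase X r (ccr64 cc φ w0 η q0) φ x := by
    intro x
    unfold bphase
    rw [← add_mul, ccp_add_ccr64]
  have hpop : δ / 2 ≤ ‖form S c 1 f0 (Fin.snoc (α := fun _ => ZMod N → ℂ) f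
      (bphase X r (ccp64 cc φ w0 η q0) φ))‖ := by
    have h1 : bphase X r cc φ = fun x =>
      bphase X r (ccp64 cc φ w0 η q0) φ x + bphase X r (ccr64 cc φ w0 η q0) φ x := funext hsplit
    rw [h1, form_add64] at hform
    have h2 := hform.trans (norm_add_le _ _)
    linarith
  have hsum : bphase X r (ccp64 cc φ w0 η q0) φ = fun x =>
      ∑ s ∈ range ⌈1 / η⌉₊, bphase X r (ccs64 cc φ w0 η q0 s) φ x := by
    funext x
    unfold bphase
    rw [sum_ccs64 cc φ w0 η q0 hq hη, sum_mul]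
  rw [hsum] at hpop
  have hpop2 := hpop.trans (form_sum64 S c f0 f ⌈1 / η⌉₊ fun s =>
    bphase X r (ccs64 cc φ w0 η q0 s) φ)
  have hη1 : η ≤ 1 := pow_le_one₀ hδ0.le (by linarith)
  have hceil : ((⌈1 / η⌉₊ : ℕ) : ℝ) ≤ 2 / η := by
    have h1 := Nat.ceil_lt_add_one (by positivity : 0 ≤ 1 / η)
    have h2 : 1 ≤ 1 / η := by rw [le_div_iff₀ hη]; linarith
    have h3 : 2 / η = 1 / η + 1 / η := by ring
    linarith
  obtain ⟨s', hs', hbig⟩ : ∃ s' ∈ range ⌈1 / η⌉₊, δ * η / 4 ≤ ‖form S c 1 f0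
      (Fin.snoc (α := fun _ => ZMod N → ℂ) f (bphase X r (ccs64 cc φ w0 η q0 s') φ))‖ := by
    by_contra hcon
    push Not at hcon
    have h0 : (range ⌈1 / η⌉₊).Nonempty := by
      rw [nonempty_range_iff]
      intro h0
      rw [h0] at hpop2
      simp only [range_zero, sum_empty] at hpop2
      linarith
    have h1 := sum_lt_sum_of_nonempty h0 hcon
    rw [sum_const, card_range, nsmul_eq_mul] at h1
    have h2 : (⌈1 / η⌉₊ : ℝ) * (δ * η / 4) ≤ 2 / η * (δ * η / 4) :=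
      mul_le_mul_of_nonneg_right hceil (by positivity)
    have h3 : 2 / η * (δ * η / 4) = δ / 2 := by field_simp; ring
    linarith
  refine ⟨ccs64 cc φ w0 η q0 s', th64 cc φ w0 η q0 s', ccs_cases64 cc φ w0 η q0 s', ?_, ?_⟩
  · intro j hj
    refine (th_close64 cc φ w0 η q0 hq hw0 hj).trans ?_
    rw [hw0def]
    refine div_le_div_of_nonneg_right ?_ hX0.le
    exact pow_le_pow_right₀ (by linarith) (by omega)
  · refine le_trans ?_ hbig
    have h1 : δ ^ (12 * CT + 20) = δ ^ 2 * (δ * η) := by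
      rw [hηdef, ← pow_succ', ← pow_add]
      congr 1
      ring
    have h2 : δ ^ 2 ≤ 1 / 4 := (pow_le_pow_left₀ hδ0.le hδ2 2).trans (by norm_num)
    have h3 : 0 < δ * η := by positivity
    rw [h1]
    have h9 := mul_le_mul_of_nonneg_right h2 h3.le
    linarith

end

end Pool.Agent.Helper57.NX
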