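import Pool.Agent.Helper64.NX.LpKey

/-!
# Project NX, NX-14, part C: popular bins
-/

set_option autoImplicit false

open Finset
open scoped BigOperators ComplexConjugate

namespace Pool.Agent.Helper57.NX

noncomputable section

section Bins64

/-- the blocks of the cell `a` -/
abbrev cell64 (q0 a : ℕ) : Finset ℕ := Ico (a * q0) ((a + 1) * q0)

lemma mem_cell64 {q0 : ℕ} (hq : 1 ≤ q0) {a j : ℕ} : j ∈ cell64 q0 a ↔ j / q0 = a := by
  rw [mem_Ico, Nat.div_eq_iff hq]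
  constructor
  · rintro ⟨h1, h2⟩
    refine ⟨h1, ?_⟩
    rw [Nat.add_mul] at h2
    omega
  · rintro ⟨h1, h2⟩
    refine ⟨h1, ?_⟩
    rw [Nat.add_mul]
    omega

/-- the bin of the block `j` -/
def bin64 (φ : ℕ → ℝ) (w0 : ℝ) (j : ℕ) : ℤ := ⌊φ j / w0⌋

lemma bin_close64 {φ : ℕ → ℝ} {w0 : ℝ} (hw0 : 0 < w0) (j : ℕ) :
    |φ j - w0 * bin64 φ w0 j| ≤ w0 := by
  unfold bin64
  have h1 := Int.floor_le (φ j / w0)
  have h2 := Int.lt_floor_add_one (φ j / w0)
  rw [le_div_iff₀ hw0] at h1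
  rw [div_lt_iff₀ hw0] at h2
  rw [abs_le]
  constructor <;> nlinarith

lemma bin_near64 {φ : ℕ → ℝ} {w0 : ℝ} (hw0 : 0 < w0) {j j' : ℕ} (h : |φ j - φ j'| ≤ w0) :
    bin64 φ w0 j' ∈ ({bin64 φ w0 j - 1, bin64 φ w0 j, bin64 φ w0 j + 1} : Finset ℤ) := by
  unfold bin64
  obtain ⟨h1, h2⟩ := abs_le.1 h
  have h3 : φ j' / w0 ≤ φ j / w0 + 1 := by
    rw [div_add_one hw0.ne', div_le_div_iff_of_pos_right hw0]
    linarith
  have h4 : φ j / w0 - 1 ≤ φ j' / w0 := by
    rw [div_sub_one hw0.ne', div_le_div_iff_of_pos_right hw0]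
    linarith
  have h5 : ⌊φ j' / w0⌋ ≤ ⌊φ j / w0⌋ + 1 := by
    have := Int.floor_mono h3
    rwa [Int.floor_add_one] at this
  have h6 : ⌊φ j / w0⌋ - 1 ≤ ⌊φ j' / w0⌋ := by
    have := Int.floor_mono h4
    rwa [Int.floor_sub_one] at this
  simp only [mem_insert, mem_singleton]
  omega

variable (cc : ℕ → ℂ) (φ : ℕ → ℝ) (w0 η : ℝ) (q0 : ℕ)

open Classical in
/-- the blocks of the cell `a` with nonzero coefficient and bin `b` -/
def bset64 (a : ℕ) (b : ℤ) : Finset ℕ :=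
  (cell64 q0 a).filter fun j => cc j ≠ 0 ∧ bin64 φ w0 j = b

/-- popular blocks -/
def pop64 (j : ℕ) : Prop := η * q0 ≤ #(bset64 cc φ w0 q0 (j / q0) (bin64 φ w0 j))

open Classical in
/-- the popular part of the coefficients -/
def ccp64 (j : ℕ) : ℂ := if pop64 cc φ w0 η q0 j then cc j else 0

open Classical in
/-- the unpopular part of the coefficients -/
def ccr64 (j : ℕ) : ℂ := if pop64 cc φ w0 η q0 j then 0 else cc j

lemma ccp_add_ccr64 (j : ℕ) : ccp64 cc φ w0 η q0 j + ccr64 cc φ w0 η q0 j = cc j := by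
  unfold ccp64 ccr64
  split_ifs <;> simp

lemma norm_ccr64 (hcc : ∀ j, ‖cc j‖ ≤ 1) (j : ℕ) : ‖ccr64 cc φ w0 η q0 j‖ ≤ 1 := by
  unfold ccr64
  split_ifs
  · simp
  · exact hcc j

section Rest
variable {N : ℕ} [NeZero N]

lemma blk_fiber64 {X L : ℕ} (hX : 1 ≤ X) (hLN : L ≤ N) (r z : ZMod N) (j : ℕ) :
    #((range L).filter fun w : ℕ => (z + (w : ZMod N) - r).val / X = j) ≤ X := by
  have h1 : #((range L).filter fun w : ℕ => (z + (w : ZMod N) - r).val / X = j) ≤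
      #(Ico (j * X) (j * X + X)) := by
    refine card_le_card_of_injOn (fun w : ℕ => (z + (w : ZMod N) - r).val) ?_ ?_
    · intro w hw
      rw [mem_coe, mem_filter] at hw
      rw [mem_coe, mem_Ico]
      have h2 := hw.2
      rw [Nat.div_eq_iff hX] at h2
      show j * X ≤ (z + (w : ZMod N) - r).val ∧ (z + (w : ZMod N) - r).val < j * X + X
      omega
    · intro w hw w' hw' h
      rw [mem_coe, mem_filter, mem_range] at hw hw'
      have h2 : z + (w : ZMod N) - r = z + (w' : ZMod N) - r := ZMod.val_injective N h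
      have h3 : (w : ZMod N) = (w' : ZMod N) := by
        have := congrArg (fun t => t - z + r) h2
        ring_nf at this
        exact this
      have h4 := congrArg ZMod.val h3
      rwa [ZMod.val_natCast, ZMod.val_natCast, Nat.mod_eq_of_lt (by omega),
        Nat.mod_eq_of_lt (by omega)] at h4
  rwa [Nat.card_Ico, Nat.add_sub_cancel_left] at h1

lemma cell_of_point64 {X L : ℕ} (hL : L = X * q0) (hL1 : 1 ≤ L) (hLN : L ≤ N) (r z : ZMod N)
    {w : ℕ} (hw : w < L) :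
    (z + (w : ZMod N) - r).val / X / q0 ∈
      ({(z - r).val / L, (z - r).val / L + 1, 0} : Finset ℕ) := by
  have hv : (z - r).val < N := ZMod.val_lt _
  have e1 : z + (w : ZMod N) - r = (z - r) + (w : ZMod N) := by ring
  have e2 : (z + (w : ZMod N) - r).val = ((z - r).val + w) % N := by
    rw [e1, ZMod.val_add, ZMod.val_natCast, Nat.mod_eq_of_lt (by omega : w < N)]
  rw [Nat.div_div_eq_div_mul, ← hL, e2]
  simp only [mem_insert, mem_singleton]
  rcases lt_or_ge ((z - r).val + w) N with h | h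
  · rw [Nat.mod_eq_of_lt h]
    have h1 : (z - r).val / L ≤ ((z - r).val + w) / L := Nat.div_le_div_right (by omega)
    have h2 : ((z - r).val + w) / L ≤ ((z - r).val + L) / L := Nat.div_le_div_right (by omega)
    rw [Nat.add_div_right _ hL1] at h2
    omega
  · right; right
    rw [Nat.mod_eq_sub_mod h, Nat.mod_eq_of_lt (by omega)]
    exact Nat.div_eq_of_lt (by omega)

open Classical in
lemma bin_count64 {X L : ℕ} (hX : 1 ≤ X) (hq : 1 ≤ q0) (hη : 0 ≤ η) (hLN : L ≤ N) (r z : ZMod N)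
    (a : ℕ) (b : ℤ) :
    ((#((range L).filter fun w : ℕ => (z + (w : ZMod N) - r).val / X / q0 = a ∧
      bin64 φ w0 ((z + (w : ZMod N) - r).val / X) = b ∧
      ccr64 cc φ w0 η q0 ((z + (w : ZMod N) - r).val / X) ≠ 0) : ℕ) : ℝ) ≤ η * q0 * X := by
  set s := (range L).filter fun w : ℕ => (z + (w : ZMod N) - r).val / X / q0 = a ∧
      bin64 φ w0 ((z + (w : ZMod N) - r).val / X) = b ∧
      ccr64 cc φ w0 η q0 ((z + (w : ZMod N) - r).val / X) ≠ 0 with hs
  rcases s.eq_empty_or_nonempty with he | ⟨w1, hw1⟩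
  · rw [he, card_empty]
    push_cast
    positivity
  have hJ : s.image (fun w : ℕ => (z + (w : ZMod N) - r).val / X) ⊆ bset64 cc φ w0 q0 a b := by
    intro j hj
    obtain ⟨w, hw, rfl⟩ := mem_image.1 hj
    rw [hs, mem_filter] at hw
    unfold bset64
    rw [mem_filter, mem_cell64 hq]
    refine ⟨hw.2.1, ?_, hw.2.2.1⟩
    intro h0
    apply hw.2.2.2
    unfold ccr64
    split_ifs
    · rfl
    · exact h0
  have h1 : #s ≤ X * #(s.image (fun w : ℕ => (z + (w : ZMod N) - r).val / X)) := by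
    refine card_le_mul_card_image s X fun j _ => ?_
    refine (card_le_card ?_).trans (blk_fiber64 hX hLN r z j)
    intro w hw
    rw [mem_filter, hs, mem_filter] at hw
    rw [mem_filter]
    exact ⟨hw.1.1, hw.2⟩
  have h2 := card_le_card hJ
  have h3 : ((#(bset64 cc φ w0 q0 a b) : ℕ) : ℝ) ≤ η * q0 := by
    rw [hs, mem_filter] at hw1
    obtain ⟨-, h4, h5, h6⟩ := hw1
    have h7 : ¬ pop64 cc φ w0 η q0 ((z + (w1 : ZMod N) - r).val / X) := by
      intro h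
      apply h6
      unfold ccr64
      rw [if_pos h]
    unfold pop64 at h7
    rw [h4, h5] at h7
    exact (not_le.1 h7).le
  have h4 : (#s : ℝ) ≤ X * (#(bset64 cc φ w0 q0 a b) : ℝ) := by
    exact_mod_cast h1.trans (Nat.mul_le_mul_left _ h2)
  have hX0 : (0 : ℝ) ≤ X := Nat.cast_nonneg _
  nlinarith [mul_le_mul_of_nonneg_left h3 hX0]

/-- The unpopular part has few pairs of close frequencies. -/
theorem rest64 {X L : ℕ} (hX : 1 ≤ X) (hq : 1 ≤ q0) (hη : 0 ≤ η) (hw0 : 0 < w0)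
    (hL : L = X * q0) (hLN : L ≤ N) (r : ZMod N) :
    𝔼 z : ZMod N, 𝔼 w ∈ range L, 𝔼 w' ∈ range L,
        ind64 X r (ccr64 cc φ w0 η q0) φ w0 (z + (w : ZMod N)) (z + (w' : ZMod N)) ≤ 9 * η := by
  classical
  have hL1 : 1 ≤ L := by rw [hL]; exact Nat.mul_pos hX hq
  have hL0 : (0 : ℝ) < L := by exact_mod_cast hL1
  refine expect_le_of5 _ _ (by positivity) fun z _ => ?_
  refine expect_le_of5 _ _ (by positivity) fun w _ => ?_
  set j := (z + (w : ZMod N) - r).val / X with hj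
  set T : Finset (ℕ × ℤ) := ({(z - r).val / L, (z - r).val / L + 1, 0} : Finset ℕ) ×ˢ
    ({bin64 φ w0 j - 1, bin64 φ w0 j, bin64 φ w0 j + 1} : Finset ℤ) with hT
  have hTc : #T ≤ 9 := by
    rw [hT, card_product]
    exact (Nat.mul_le_mul card_le_three card_le_three).trans (by norm_num)
  let sab : ℕ × ℤ → Finset ℕ := fun ab =>
    (range L).filter fun w : ℕ => (z + (w : ZMod N) - r).val / X / q0 = ab.1 ∧
      bin64 φ w0 ((z + (w : ZMod N) - r).val / X) = ab.2 ∧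
      ccr64 cc φ w0 η q0 ((z + (w : ZMod N) - r).val / X) ≠ 0
  have h1 : ∀ w' ∈ range L,
      ind64 X r (ccr64 cc φ w0 η q0) φ w0 (z + (w : ZMod N)) (z + (w' : ZMod N)) ≤
        if w' ∈ T.biUnion sab then (1 : ℝ) else 0 := by
    intro w' hw'
    unfold ind64
    by_cases hc : ccr64 cc φ w0 η q0 ((z + (w : ZMod N) - r).val / X) ≠ 0 ∧
        ccr64 cc φ w0 η q0 ((z + (w' : ZMod N) - r).val / X) ≠ 0 ∧
        |φ ((z + (w : ZMod N) - r).val / X) - φ ((z + (w' : ZMod N) - r).val / X)| ≤ w0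
    · rw [if_pos hc, if_pos]
      rw [mem_biUnion]
      refine ⟨((z + (w' : ZMod N) - r).val / X / q0, bin64 φ w0 ((z + (w' : ZMod N) - r).val / X)),
        ?_, ?_⟩
      · rw [hT, mem_product]
        exact ⟨cell_of_point64 q0 hL hL1 hLN r z (mem_range.1 hw'), bin_near64 hw0 hc.2.2⟩
      · rw [mem_filter]
        exact ⟨hw', rfl, rfl, hc.2.1⟩
    · rw [if_neg hc]
      split_ifs <;> norm_num
  refine (expect_le_expect h1).trans ?_
  rw [expect_eq_sum_div_card, card_range, div_le_iff₀ hL0, ← sum_filter, sum_const, nsmul_eq_mul,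
    mul_one]
  have h2 : #((range L).filter fun w' => w' ∈ T.biUnion sab) ≤ ∑ ab ∈ T, #(sab ab) :=
    (card_le_card fun w' hw' => (mem_filter.1 hw').2).trans card_biUnion_le
  have h3 : ((∑ ab ∈ T, #(sab ab) : ℕ) : ℝ) ≤ ∑ ab ∈ T, η * q0 * X := by
    push_cast
    exact sum_le_sum fun ab _ => bin_count64 cc φ w0 η q0 hX hq hη hLN r z ab.1 ab.2
  rw [sum_const, nsmul_eq_mul] at h3
  have h4 : ((#T : ℕ) : ℝ) ≤ 9 := by exact_mod_cast hTc
  have h5 : (0 : ℝ) ≤ η * q0 * X := by positivity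
  have h6 : ((#((range L).filter fun w' => w' ∈ T.biUnion sab) : ℕ) : ℝ) ≤
      ((∑ ab ∈ T, #(sab ab) : ℕ) : ℝ) := by exact_mod_cast h2
  have h7 : (L : ℝ) = X * q0 := by rw [hL]; push_cast; ring
  rw [h7]
  nlinarith [mul_le_mul_of_nonneg_right h4 h5]

end Rest

/-! ### the popular part -/

open Classical in
/-- the popular bins of the cell `a` -/
def pbins64 (a : ℕ) : Finset ℤ :=
  ((cell64 q0 a).filter fun j => ccp64 cc φ w0 η q0 j ≠ 0).image (bin64 φ w0)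

lemma ccp_ne64 {j : ℕ} (h : ccp64 cc φ w0 η q0 j ≠ 0) :
    pop64 cc φ w0 η q0 j ∧ cc j ≠ 0 ∧ ccp64 cc φ w0 η q0 j = cc j := by
  unfold ccp64 at h ⊢
  split_ifs at h ⊢ with hp
  · exact ⟨hp, h, rfl⟩
  · exact absurd rfl h

lemma card_pbins64 (hq : 1 ≤ q0) (hη : 0 < η) (a : ℕ) :
    ((#(pbins64 cc φ w0 η q0 a) : ℕ) : ℝ) ≤ 1 / η := by
  classical
  have hq0 : (0 : ℝ) < q0 := by exact_mod_cast hq
  have h1 : ∀ b ∈ pbins64 cc φ w0 η q0 a, η * q0 ≤ (#(bset64 cc φ w0 q0 a b) : ℝ) := by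
    intro b hb
    unfold pbins64 at hb
    obtain ⟨j, hj, rfl⟩ := mem_image.1 hb
    rw [mem_filter, mem_cell64 hq] at hj
    have h2 := (ccp_ne64 cc φ w0 η q0 hj.2).1
    unfold pop64 at h2
    rwa [hj.1] at h2
  have h2 : ∑ b ∈ pbins64 cc φ w0 η q0 a, #(bset64 cc φ w0 q0 a b) ≤ q0 := by
    have h3 : ∑ b ∈ pbins64 cc φ w0 η q0 a, #(bset64 cc φ w0 q0 a b) =
        #((pbins64 cc φ w0 η q0 a).biUnion fun b => bset64 cc φ w0 q0 a b) := by
      rw [card_biUnion]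
      intro b _ b' _ hbb
      rw [Function.onFun, disjoint_left]
      intro j hj hj'
      unfold bset64 at hj hj'
      rw [mem_filter] at hj hj'
      exact hbb (hj.2.2.symm.trans hj'.2.2)
    rw [h3]
    have h4 : #((pbins64 cc φ w0 η q0 a).biUnion fun b => bset64 cc φ w0 q0 a b) ≤
        #(cell64 q0 a) := by
      refine card_le_card ?_
      rw [biUnion_subset]
      exact fun b _ => filter_subset _ _
    refine h4.trans (le_of_eq ?_)
    rw [Nat.card_Ico, Nat.add_mul, one_mul, Nat.add_sub_cancel_left]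
  have h3 : (#(pbins64 cc φ w0 η q0 a) : ℝ) * (η * q0) ≤ q0 := by
    have h4 := sum_le_sum h1
    rw [sum_const, nsmul_eq_mul] at h4
    refine h4.trans ?_
    exact_mod_cast h2
  rw [le_div_iff₀ hη]
  have h5 : (#(pbins64 cc φ w0 η q0 a) : ℝ) * η * q0 ≤ 1 * q0 := by linarith
  exact le_of_mul_le_mul_right h5 hq0

open Classical in
/-- the rank of the bin of `j` among the popular bins of its cell -/
def rank64 (j : ℕ) : ℕ :=
  #((pbins64 cc φ w0 η q0 (j / q0)).filter fun b => b < bin64 φ w0 j)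

lemma bin_mem64 (hq : 1 ≤ q0) {j : ℕ} (h : ccp64 cc φ w0 η q0 j ≠ 0) :
    bin64 φ w0 j ∈ pbins64 cc φ w0 η q0 (j / q0) := by
  classical
  unfold pbins64
  refine mem_image.2 ⟨j, ?_, rfl⟩
  rw [mem_filter, mem_cell64 hq]
  exact ⟨rfl, h⟩

lemma rank_lt64 (hq : 1 ≤ q0) {j : ℕ} (h : ccp64 cc φ w0 η q0 j ≠ 0) :
    rank64 cc φ w0 η q0 j < #(pbins64 cc φ w0 η q0 (j / q0)) := by
  classical
  unfold rank64
  refine card_lt_card ?_
  rw [ssubset_iff_of_subset (filter_subset _ _)]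
  refine ⟨bin64 φ w0 j, bin_mem64 cc φ w0 η q0 hq h, ?_⟩
  rw [mem_filter]
  exact fun h => lt_irrefl _ h.2

lemma rank_inj64 (hq : 1 ≤ q0) {j j' : ℕ} (h : ccp64 cc φ w0 η q0 j ≠ 0)
    (h' : ccp64 cc φ w0 η q0 j' ≠ 0) (ha : j / q0 = j' / q0)
    (hr : rank64 cc φ w0 η q0 j = rank64 cc φ w0 η q0 j') : bin64 φ w0 j = bin64 φ w0 j' := by
  classical
  have key : ∀ j j' : ℕ, ccp64 cc φ w0 η q0 j ≠ 0 → j / q0 = j' / q0 →
      rank64 cc φ w0 η q0 j = rank64 cc φ w0 η q0 j' → ¬ bin64 φ w0 j < bin64 φ w0 j' := by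
    intro j j' h ha hr hlt
    have h1 : rank64 cc φ w0 η q0 j < rank64 cc φ w0 η q0 j' := by
      unfold rank64
      rw [← ha]
      refine card_lt_card ?_
      rw [ssubset_iff_of_subset]
      · refine ⟨bin64 φ w0 j, ?_, ?_⟩
        · rw [mem_filter]
          exact ⟨bin_mem64 cc φ w0 η q0 hq h, hlt⟩
        · rw [mem_filter]
          exact fun h => lt_irrefl _ h.2
      · intro b hb
        rw [mem_filter] at hb ⊢
        exact ⟨hb.1, hb.2.trans hlt⟩
    omega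
  have h1 := key j j' h ha hr
  have h2 := key j' j h' ha.symm hr.symm
  omega

/-- the part of the popular coefficients of rank `s` -/
def ccs64 (s j : ℕ) : ℂ := if rank64 cc φ w0 η q0 j = s then ccp64 cc φ w0 η q0 j else 0

open Classical in
/-- the common frequency of the cell `a` for the rank `s` -/
def th64 (s a : ℕ) : ℝ :=
  if h : ∃ j, j / q0 = a ∧ ccs64 cc φ w0 η q0 s j ≠ 0 then w0 * bin64 φ w0 h.choose else 0

lemma ccs_ne64 {s j : ℕ} (h : ccs64 cc φ w0 η q0 s j ≠ 0) :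
    rank64 cc φ w0 η q0 j = s ∧ ccp64 cc φ w0 η q0 j ≠ 0 := by
  unfold ccs64 at h
  split_ifs at h with hr
  · exact ⟨hr, h⟩
  · exact absurd rfl h

lemma ccs_cases64 (s j : ℕ) : ccs64 cc φ w0 η q0 s j = cc j ∨ ccs64 cc φ w0 η q0 s j = 0 := by
  unfold ccs64 ccp64
  split_ifs <;> simp

lemma th_close64 (hq : 1 ≤ q0) (hw0 : 0 < w0) {s j : ℕ} (h : ccs64 cc φ w0 η q0 s j ≠ 0) :
    |φ j - th64 cc φ w0 η q0 s (j / q0)| ≤ w0 := by
  have hex : ∃ j', j' / q0 = j / q0 ∧ ccs64 cc φ w0 η q0 s j' ≠ 0 := ⟨j, rfl, h⟩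
  unfold th64
  rw [dif_pos hex]
  obtain ⟨h1, h2⟩ := hex.choose_spec
  obtain ⟨h3, h4⟩ := ccs_ne64 cc φ w0 η q0 h2
  obtain ⟨h5, h6⟩ := ccs_ne64 cc φ w0 η q0 h
  have h7 := rank_inj64 cc φ w0 η q0 hq h4 h6 h1 (h3.trans h5.symm)
  rw [h7]
  exact bin_close64 hw0 j

lemma sum_ccs64 (hq : 1 ≤ q0) (hη : 0 < η) (j : ℕ) :
    ccp64 cc φ w0 η q0 j = ∑ s ∈ range ⌈1 / η⌉₊, ccs64 cc φ w0 η q0 s j := by
  classical
  unfold ccs64
  by_cases h : ccp64 cc φ w0 η q0 j = 0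
  · simp [h]
  · have h1 := rank_lt64 cc φ w0 η q0 hq h
    have h2 := card_pbins64 cc φ w0 η q0 hq hη (j / q0)
    have h3 : rank64 cc φ w0 η q0 j < ⌈1 / η⌉₊ := by
      rw [Nat.lt_ceil]
      refine lt_of_lt_of_le ?_ h2
      exact_mod_cast h1
    rw [sum_ite_eq, if_pos (mem_range.2 h3)]

end Bins64

end

end Pool.Agent.Helper57.NX
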