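import Pool.Agent.Helper64.NX.Blocks

/-!
# Project NX, NX-14, part B: differencing in `x`
-/

set_option autoImplicit false

open Finset
open scoped BigOperators ComplexConjugate

namespace Pool.Agent.Helper57.NX

noncomputable section

lemma conj_expect64 {ι : Type} (s : Finset ι) (g : ι → ℂ) :
    conj (𝔼 i ∈ s, g i) = 𝔼 i ∈ s, conj (g i) := by
  rw [Finset.expect_eq_sum_div_card, Finset.expect_eq_sum_div_card, map_div₀, map_sum,
    Complex.conj_natCast]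

/-- `‖𝔼 g‖² = 𝔼 𝔼 g conj g` -/
lemma norm_sq_expect64 {ι : Type} (s : Finset ι) (g : ι → ℂ) :
    ((‖𝔼 i ∈ s, g i‖ ^ 2 : ℝ) : ℂ) = 𝔼 i ∈ s, 𝔼 j ∈ s, g i * conj (g j) := by
  have h : (𝔼 i ∈ s, 𝔼 j ∈ s, g i * conj (g j)) = (𝔼 i ∈ s, g i) * conj (𝔼 i ∈ s, g i) := by
    rw [conj_expect64, expect_mul_expect]
  rw [h, Complex.mul_conj, Complex.normSq_eq_norm_sq]

lemma sq_expect_le64 {ι : Type} (s : Finset ι) (g : ι → ℝ) :
    (𝔼 i ∈ s, g i) ^ 2 ≤ 𝔼 i ∈ s, g i ^ 2 := by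
  have h := Finset.expect_mul_sq_le_sq_mul_sq s (fun _ => (1 : ℝ)) g
  simp only [one_mul, one_pow] at h
  refine h.trans (mul_le_of_le_one_left (expect_nonneg fun k _ => by positivity) ?_)
  exact expect_le_of5 _ _ zero_le_one fun k _ => le_refl _

lemma expect_comm4_64 {α β γ δ : Type} (s : Finset α)
    (t : Finset β) (u : Finset γ) (v : Finset δ) (G : α → β → γ → δ → ℂ) :
    (𝔼 k ∈ s, 𝔼 x ∈ t, 𝔼 y ∈ u, 𝔼 z ∈ v, G k x y z) =
      𝔼 y ∈ u, 𝔼 z ∈ v, 𝔼 k ∈ s, 𝔼 x ∈ t, G k x y z := by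
  calc (𝔼 k ∈ s, 𝔼 x ∈ t, 𝔼 y ∈ u, 𝔼 z ∈ v, G k x y z)
      = 𝔼 k ∈ s, 𝔼 y ∈ u, 𝔼 z ∈ v, 𝔼 x ∈ t, G k x y z := by
        refine expect_congr rfl fun k _ => ?_
        rw [expect_comm]
        exact expect_congr rfl fun y _ => expect_comm _ _ _
    _ = 𝔼 y ∈ u, 𝔼 k ∈ s, 𝔼 z ∈ v, 𝔼 x ∈ t, G k x y z := expect_comm _ _ _
    _ = 𝔼 y ∈ u, 𝔼 z ∈ v, 𝔼 k ∈ s, 𝔼 x ∈ t, G k x y z :=
        expect_congr rfl fun y _ => expect_comm _ _ _

section Form64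
variable {m N : ℕ} [NeZero N]

/-- Cauchy–Schwarz after a short shift of `x` -/
theorem form_cs_local64 (S : Sys m) (c : Fin m → ℝ) (f0 : ZMod N → ℂ) (f : Fin m → ZMod N → ℂ)
    (Y : ℕ) (hY : 1 ≤ Y) :
    ‖form S c 1 f0 f‖ ^ 2 ≤ 𝔼 y ∈ range Y, 𝔼 y' ∈ range Y,
      ‖form S c 1 (fun x => f0 (x + (y : ZMod N)) * conj (f0 (x + (y' : ZMod N))))
        (fun i x => f i (x + (y : ZMod N)) * conj (f i (x + (y' : ZMod N))))‖ := by
  set F : ℕ → ZMod N → ℂ := fun k x => f0 x * ∏ i, f i (x + (S.a c i k : ZMod N)) with hF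
  have hne : (range Y).Nonempty := nonempty_range_iff.2 (by omega)
  -- the shifted form
  have e1 : form S c 1 f0 f = 𝔼 k ∈ S.I, 𝔼 x : ZMod N, 𝔼 y ∈ range Y, F k (x + (y : ZMod N)) := by
    unfold form
    refine expect_congr rfl fun k _ => ?_
    rw [Pi.one_apply, one_mul, expect_comm]
    rw [expect_congr rfl fun (y : ℕ) _ => expect_shift (F k) (y : ZMod N), expect_const hne]
  have e2 : ‖form S c 1 f0 f‖ ^ 2 ≤
      𝔼 k ∈ S.I, 𝔼 x : ZMod N, ‖𝔼 y ∈ range Y, F k (x + (y : ZMod N))‖ ^ 2 := by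
    have h1 : ‖form S c 1 f0 f‖ ≤
        𝔼 k ∈ S.I, 𝔼 x : ZMod N, ‖𝔼 y ∈ range Y, F k (x + (y : ZMod N))‖ := by
      rw [e1]
      refine (norm_expect_le5 _ _).trans (expect_le_expect fun k _ => ?_)
      exact norm_expect_le5 _ _
    refine (pow_le_pow_left₀ (norm_nonneg _) h1 2).trans ((sq_expect_le64 _ _).trans ?_)
    exact expect_le_expect fun k _ => sq_expect_le64 _ _
  have e3 : ((𝔼 k ∈ S.I, 𝔼 x : ZMod N, ‖𝔼 y ∈ range Y, F k (x + (y : ZMod N))‖ ^ 2 : ℝ) : ℂ) =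
      𝔼 y ∈ range Y, 𝔼 y' ∈ range Y,
        form S c 1 (fun x => f0 (x + (y : ZMod N)) * conj (f0 (x + (y' : ZMod N))))
        (fun i x => f i (x + (y : ZMod N)) * conj (f i (x + (y' : ZMod N)))) := by
    have h2 : ∀ y y' : ℕ,
        form S c 1 (fun x => f0 (x + (y : ZMod N)) * conj (f0 (x + (y' : ZMod N))))
        (fun i x => f i (x + (y : ZMod N)) * conj (f i (x + (y' : ZMod N)))) =
        𝔼 k ∈ S.I, 𝔼 x : ZMod N, F k (x + (y : ZMod N)) * conj (F k (x + (y' : ZMod N))) := by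
      intro y y'
      unfold form
      refine expect_congr rfl fun k _ => ?_
      rw [Pi.one_apply, one_mul]
      refine expect_congr rfl fun x _ => ?_
      simp only [hF]
      rw [prod_mul_distrib, map_mul, map_prod]
      have h3 : ∀ (t : ℕ) (i : Fin m), x + (S.a c i k : ZMod N) + (t : ZMod N) =
        x + (t : ZMod N) + (S.a c i k : ZMod N) := fun t i => by ring
      simp_rw [h3]
      ring
    simp_rw [h2]
    push_cast
    have h4 : ∀ k x, ((‖𝔼 y ∈ range Y, F k (x + (y : ZMod N))‖ : ℂ) ^ 2) =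
        𝔼 y ∈ range Y, 𝔼 y' ∈ range Y, F k (x + (y : ZMod N)) * conj (F k (x + (y' : ZMod N))) := by
      intro k x
      rw [← norm_sq_expect64]
      push_cast
      rfl
    simp_rw [h4]
    have h6 := expect_comm4_64 S.I (univ : Finset (ZMod N)) (range Y) (range Y)
      (fun (k : ℕ) (x : ZMod N) (y y' : ℕ) =>
        F k (x + (y : ZMod N)) * conj (F k (x + (y' : ZMod N))))
    exact h6
  refine e2.trans ?_
  have h5 := congrArg norm e3
  rw [Complex.norm_real] at h5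
  refine (Real.le_norm_self _).trans ?_
  rw [h5]
  refine (norm_expect_le5 _ _).trans (expect_le_expect fun y _ => ?_)
  exact norm_expect_le5 _ _

omit [NeZero N] in
lemma snoc_update64 (f : Fin m → ZMod N → ℂ) (u v : ZMod N → ℂ) :
    Function.update (Fin.snoc (α := fun _ => ZMod N → ℂ) f u) (Fin.last m) v =
      Fin.snoc (α := fun _ => ZMod N → ℂ) f v := by
  funext i
  refine Fin.lastCases ?_ (fun i => ?_) i
  · rw [Function.update_self, Fin.snoc_last]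
  · rw [Function.update_of_ne (Fin.castSucc_lt_last i).ne, Fin.snoc_castSucc, Fin.snoc_castSucc]

omit [NeZero N] in
lemma snoc_bdd64 {f : Fin m → ZMod N → ℂ} (hf : ∀ i x, ‖f i x‖ ≤ 1) {u : ZMod N → ℂ}
    (hu : ∀ x, ‖u x‖ ≤ 1) (i : Fin (m + 1)) (x : ZMod N) :
    ‖Fin.snoc (α := fun _ => ZMod N → ℂ) f u i x‖ ≤ 1 := by
  refine Fin.lastCases ?_ (fun i => ?_) i
  · rw [Fin.snoc_last]
    exact hu x
  · rw [Fin.snoc_castSucc]
    exact hf i x

lemma snoc_sub64 (S : Sys (m + 1)) (c : Fin (m + 1) → ℝ) (f0 : ZMod N → ℂ)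
    (hf0 : ∀ x, ‖f0 x‖ ≤ 1) (f : Fin m → ZMod N → ℂ) (hf : ∀ i x, ‖f i x‖ ≤ 1)
    (u v : ZMod N → ℂ) :
    ‖form S c 1 f0 (Fin.snoc (α := fun _ => ZMod N → ℂ) f u)‖ ≤
      ‖form S c 1 f0 (Fin.snoc (α := fun _ => ZMod N → ℂ) f v)‖ + nrm (fun x => u x - v x) := by
  have h1 := form_update_sub S c 1 f0 (Fin.snoc (α := fun _ => ZMod N → ℂ) f u) (Fin.last m) u v
  have h2 := norm_form_update_le S c 1 (fun _ => by simp) f0 hf0
    (Fin.snoc (α := fun _ => ZMod N → ℂ) f (fun _ => 0)) (Fin.last m)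
    (fun j _ x => snoc_bdd64 hf (fun _ => by simp) j x) (fun x => u x - v x)
  rw [snoc_update64, snoc_update64, snoc_update64] at h1
  rw [snoc_update64] at h2
  have h3 : form S c 1 f0 (Fin.snoc (α := fun _ => ZMod N → ℂ) f u) =
      form S c 1 f0 (Fin.snoc (α := fun _ => ZMod N → ℂ) f v) +
      form S c 1 f0 (Fin.snoc (α := fun _ => ZMod N → ℂ) f (fun x => u x - v x)) := by
    rw [h1]; ring
  rw [h3]
  exact (norm_add_le _ _).trans (add_le_add le_rfl h2)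

/-! ### the differenced block phase -/

/-- the coefficients of the differenced block phase -/
def gcoef64 (cc : ℕ → ℂ) (φ : ℕ → ℝ) (y y' : ℕ) (j : ℕ) : ℂ :=
  ((‖cc j‖ ^ 2 : ℝ) : ℂ) * e (φ j * ((y : ℝ) - y'))

/-- the differenced block phase -/
def Gf64 (X : ℕ) (r : ZMod N) (cc : ℕ → ℂ) (φ : ℕ → ℝ) (y y' : ℕ) (z : ZMod N) : ℂ :=
  gcoef64 cc φ y y' ((z - r).val / X)

lemma norm_gcoef64 {cc : ℕ → ℂ} (hcc : ∀ j, ‖cc j‖ ≤ 1) (φ : ℕ → ℝ) (y y' j : ℕ) :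
    ‖gcoef64 cc φ y y' j‖ ≤ 1 := by
  unfold gcoef64
  rw [norm_mul, norm_e, mul_one, Complex.norm_real, Real.norm_eq_abs, abs_of_nonneg (by positivity)]
  have := hcc j
  have := norm_nonneg (cc j)
  nlinarith

omit [NeZero N] in
lemma bphase_bdd64 {X : ℕ} {r : ZMod N} {cc : ℕ → ℂ} (hcc : ∀ j, ‖cc j‖ ≤ 1) (φ : ℕ → ℝ)
    (x : ZMod N) : ‖bphase X r cc φ x‖ ≤ 1 := by
  unfold bphase
  rw [norm_mul, norm_e, mul_one]
  exact hcc _

lemma bphase_mul64 {X : ℕ} {r : ZMod N} (cc : ℕ → ℂ) (φ : ℕ → ℝ) {Y : ℕ} {y y' : ℕ}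
    (hy : y < Y) (hy' : y' < Y) {z : ZMod N} (hz : ¬ ∃ t < Y, chg64 X r (z + (t : ZMod N))) :
    bphase X r cc φ (z + (y : ZMod N)) * conj (bphase X r cc φ (z + (y' : ZMod N))) =
      Gf64 X r cc φ y y' z := by
  have hz' : ∀ t < Y, ¬ chg64 X r (z + (t : ZMod N)) := fun t ht h => hz ⟨t, ht, h⟩
  obtain ⟨h1, h2⟩ := nochg64 (X := X) y fun t ht => hz' t (ht.trans hy)
  obtain ⟨h3, h4⟩ := nochg64 (X := X) y' fun t ht => hz' t (ht.trans hy')
  unfold bphase Gf64 gcoef64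
  rw [h2, h4, h1, h3, map_mul, ← e_neg]
  set j := (z - r).val / X
  set v := (z - r).val
  have h5 : e (φ j * ((y : ℝ) - y')) = e (φ j * ((v + y : ℕ) : ℝ)) * e (-(φ j * ((v + y' : ℕ) : ℝ))) := by
    rw [← e_add]
    congr 1
    push_cast
    ring
  rw [h5]
  have h6 : ((‖cc j‖ ^ 2 : ℝ) : ℂ) = cc j * conj (cc j) := by
    rw [Complex.mul_conj, Complex.normSq_eq_norm_sq]
  rw [h6]
  ring

lemma nrm_diff64 {X : ℕ} (hX : 1 ≤ X) (hXN : X ≤ N) (r : ZMod N) {cc : ℕ → ℂ}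
    (hcc : ∀ j, ‖cc j‖ ≤ 1) (φ : ℕ → ℝ) {Y : ℕ} {y y' : ℕ} (hy : y < Y) (hy' : y' < Y) :
    nrm (fun z : ZMod N => bphase X r cc φ (z + (y : ZMod N)) *
      conj (bphase X r cc φ (z + (y' : ZMod N))) - Gf64 X r cc φ y y' z) ≤ 4 * Y / X := by
  classical
  have h1 : nrm (fun z : ZMod N => bphase X r cc φ (z + (y : ZMod N)) *
      conj (bphase X r cc φ (z + (y' : ZMod N))) - Gf64 X r cc φ y y' z) ≤
      𝔼 z : ZMod N, 2 * (if ∃ t < Y, chg64 X r (z + (t : ZMod N)) then (1 : ℝ) else 0) := by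
    refine expect_le_expect fun z _ => ?_
    split_ifs with h
    · refine (norm_sub_le _ _).trans ?_
      rw [norm_mul, Complex.norm_conj]
      have h2 := mul_le_one₀ (bphase_bdd64 (X := X) (r := r) hcc φ (z + (y : ZMod N)))
        (norm_nonneg _) (bphase_bdd64 (X := X) (r := r) hcc φ (z + (y' : ZMod N)))
      have h3 := norm_gcoef64 hcc φ y y' ((z - r).val / X)
      unfold Gf64
      linarith
    · beta_reduce
      rw [bphase_mul64 cc φ hy hy' h, sub_self, norm_zero]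
      norm_num
  refine h1.trans ?_
  rw [← mul_expect]
  have h4 := expect_exc64 hX hXN r Y
  have h5 : 2 * ((Y : ℝ) * (2 / X)) = 4 * Y / X := by ring
  rw [← h5]
  exact mul_le_mul_of_nonneg_left (by convert h4) (by norm_num)

/-- geometric sums -/
lemma geom64 {Y : ℕ} (hY : 1 ≤ Y) {β w0 : ℝ} (hw0 : 0 < w0) (hβ : w0 ≤ |β|) (hβ2 : |β| ≤ 1 / 2) :
    ‖𝔼 y ∈ range Y, e (β * y)‖ ≤ 1 / (2 * Y * w0) := by
  have hY0 : (0 : ℝ) < Y := by exact_mod_cast hY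
  have h := freq_bound (N := 1) (f := fun _ => 1) (fun _ => by simp) 0 Y hY (-β)
    (by rw [abs_neg]; exact hw0.trans_le hβ) (by rwa [abs_neg])
  simp only [one_mul, sub_self, norm_zero, sum_const_zero, add_zero, neg_mul, neg_neg,
    abs_neg] at h
  refine h.trans ?_
  have hβ0 : 0 < |β| := hw0.trans_le hβ
  rw [div_le_div_iff₀ (by positivity) (by positivity)]
  nlinarith [mul_le_mul_of_nonneg_left hβ hY0.le]

open Classical in
/-- the indicator of pairs of points with close frequencies -/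
def ind64 (X : ℕ) (r : ZMod N) (cc : ℕ → ℂ) (φ : ℕ → ℝ) (w0 : ℝ) (p p' : ZMod N) : ℝ :=
  if cc ((p - r).val / X) ≠ 0 ∧ cc ((p' - r).val / X) ≠ 0 ∧
    |φ ((p - r).val / X) - φ ((p' - r).val / X)| ≤ w0 then 1 else 0

omit [NeZero N] in
/-- expansion of the averages of the differenced block phase -/
lemma expand64 {X : ℕ} (r : ZMod N) {cc : ℕ → ℂ} (hcc : ∀ j, ‖cc j‖ ≤ 1) (φ : ℕ → ℝ)
    {Y : ℕ} (hY : 1 ≤ Y) (L : ℕ) {w0 : ℝ} (hw0 : 0 < w0) (hφ : ∀ j j', |φ j - φ j'| ≤ 1 / 2)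
    (z : ZMod N) :
    𝔼 y ∈ range Y, 𝔼 y' ∈ range Y, ‖A L (Gf64 X r cc φ y y') z‖ ^ 2 ≤
      𝔼 w ∈ range L, 𝔼 w' ∈ range L, (ind64 X r cc φ w0 (z + (w : ZMod N)) (z + (w' : ZMod N)) +
        (1 / (2 * Y * w0)) ^ 2) := by
  set J : ℕ → ℕ := fun w => (z + (w : ZMod N) - r).val / X with hJ
  have h1 : ((𝔼 y ∈ range Y, 𝔼 y' ∈ range Y, ‖A L (Gf64 X r cc φ y y') z‖ ^ 2 : ℝ) : ℂ) =
      ((𝔼 w ∈ range L, 𝔼 w' ∈ range L, ‖cc (J w)‖ ^ 2 * ‖cc (J w')‖ ^ 2 *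
        ‖𝔼 y ∈ range Y, e ((φ (J w) - φ (J w')) * y)‖ ^ 2 : ℝ) : ℂ) := by
    have h2 : ∀ y y' : ℕ, ((‖A L (Gf64 X r cc φ y y') z‖ ^ 2 : ℝ) : ℂ) =
        𝔼 w ∈ range L, 𝔼 w' ∈ range L, ((‖cc (J w)‖ ^ 2 * ‖cc (J w')‖ ^ 2 : ℝ) : ℂ) *
          (e ((φ (J w) - φ (J w')) * y) * conj (e ((φ (J w) - φ (J w')) * y'))) := by
      intro y y'
      unfold A
      rw [norm_sq_expect64]
      refine expect_congr rfl fun w _ => expect_congr rfl fun w' _ => ?_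
      unfold Gf64 gcoef64
      rw [map_mul, Complex.conj_ofReal, ← e_neg, ← e_neg]
      have h3 : e ((φ (J w) - φ (J w')) * y) * e (-((φ (J w) - φ (J w')) * y')) =
          e (φ (J w) * ((y : ℝ) - y')) * e (-(φ (J w') * ((y : ℝ) - y'))) := by
        rw [← e_add, ← e_add]
        congr 1
        ring
      rw [h3]
      push_cast
      ring
    push_cast
    simp_rw [← Complex.ofReal_pow]
    simp_rw [h2]
    rw [expect_comm4_64]
    refine expect_congr rfl fun w _ => expect_congr rfl fun w' _ => ?_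
    rw [norm_sq_expect64]
    simp_rw [← mul_expect]
    push_cast
    ring
  have h4 := Complex.ofReal_injective h1
  rw [h4]
  refine expect_le_expect fun w _ => expect_le_expect fun w' _ => ?_
  have hb : ∀ j, ‖cc j‖ ^ 2 ≤ 1 := fun j => by
    have := hcc j
    have := norm_nonneg (cc j)
    nlinarith
  have he : ‖𝔼 y ∈ range Y, e ((φ (J w) - φ (J w')) * y)‖ ≤ 1 :=
    norm_expect_le_of5 _ _ zero_le_one fun y _ => (norm_e _).le
  have hκ : 0 ≤ (1 / (2 * Y * w0)) ^ 2 := by positivity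
  have hbb : ‖cc (J w)‖ ^ 2 * ‖cc (J w')‖ ^ 2 ≤ 1 :=
    mul_le_one₀ (hb _) (by positivity) (hb _)
  have hbb0 : 0 ≤ ‖cc (J w)‖ ^ 2 * ‖cc (J w')‖ ^ 2 := by positivity
  unfold ind64
  split_ifs with hc
  · have h5 : ‖𝔼 y ∈ range Y, e ((φ (J w) - φ (J w')) * y)‖ ^ 2 ≤ 1 := by
      have := norm_nonneg (𝔼 y ∈ range Y, e ((φ (J w) - φ (J w')) * y))
      nlinarith
    have := mul_le_one₀ hbb (by positivity) h5
    linarith
  · by_cases hc1 : cc (J w) = 0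
    · rw [hc1]
      simp only [norm_zero, ne_eq, OfNat.ofNat_ne_zero, not_false_eq_true, zero_pow, zero_mul,
        zero_add]
      exact hκ
    by_cases hc2 : cc (J w') = 0
    · rw [hc2]
      simp only [norm_zero, ne_eq, OfNat.ofNat_ne_zero, not_false_eq_true, zero_pow, zero_mul,
        mul_zero, zero_add]
      exact hκ
    have h6 : w0 < |φ (J w) - φ (J w')| := by
      by_contra h
      exact hc ⟨hc1, hc2, not_lt.1 h⟩
    have h7 := geom64 hY hw0 h6.le (hφ (J w) (J w'))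
    have h8 := pow_le_pow_left₀ (norm_nonneg _) h7 2
    rw [zero_add]
    calc ‖cc (J w)‖ ^ 2 * ‖cc (J w')‖ ^ 2 * ‖𝔼 y ∈ range Y, e ((φ (J w) - φ (J w')) * y)‖ ^ 2
        ≤ 1 * ‖𝔼 y ∈ range Y, e ((φ (J w) - φ (J w')) * y)‖ ^ 2 :=
          mul_le_mul_of_nonneg_right hbb (by positivity)
      _ ≤ (1 / (2 * Y * w0)) ^ 2 := by rw [one_mul]; exact h8

/-- Key lemma: a large form of a block phase gives many pairs of points at distance `< L` with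
close frequencies. -/
theorem key64 (S : Sys (m + 1)) (c : Fin (m + 1) → ℝ) (f0 : ZMod N → ℂ)
    (hf0 : ∀ x, ‖f0 x‖ ≤ 1) (f : Fin m → ZMod N → ℂ) (hf : ∀ i x, ‖f i x‖ ≤ 1)
    {X : ℕ} (hX : 1 ≤ X) (hXN : X ≤ N) (r : ZMod N) {cc : ℕ → ℂ} (hcc : ∀ j, ‖cc j‖ ≤ 1)
    {φ : ℕ → ℝ} (hφ : ∀ j j', |φ j - φ j'| ≤ 1 / 2) {Y : ℕ} (hY : 1 ≤ Y) (L : ℕ) {w0 : ℝ}
    (hw0 : 0 < w0) {δ1 δ6 δT : ℝ} (hδ1 : 0 ≤ δ1) (hδ6 : 0 ≤ δ6) (hδT : 0 < δT)
    (hpos : 0 ≤ δ1 ^ 2 - 4 * Y / X - δ6)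
    (hG : ∀ y < Y, ∀ y' < Y, δ6 ≤ ‖form S c 1
        (fun x => f0 (x + (y : ZMod N)) * conj (f0 (x + (y' : ZMod N))))
        (Fin.snoc (α := fun _ => ZMod N → ℂ)
          (fun i x => f i (x + (y : ZMod N)) * conj (f i (x + (y' : ZMod N))))
          (Gf64 X r cc φ y y'))‖ → δT ≤ nrm (A L (Gf64 X r cc φ y y')))
    (h : δ1 ≤ ‖form S c 1 f0 (Fin.snoc (α := fun _ => ZMod N → ℂ) f (bphase X r cc φ))‖) :
    (δT * (δ1 ^ 2 - 4 * Y / X - δ6)) ^ 2 ≤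
      (𝔼 z : ZMod N, 𝔼 w ∈ range L, 𝔼 w' ∈ range L,
        ind64 X r cc φ w0 (z + (w : ZMod N)) (z + (w' : ZMod N))) + (1 / (2 * Y * w0)) ^ 2 := by
  have hY0 : (0 : ℝ) < Y := by exact_mod_cast hY
  have hne : (range Y).Nonempty := nonempty_range_iff.2 (by omega)
  -- step 1
  have h1 := form_cs_local64 S c f0 (Fin.snoc (α := fun _ => ZMod N → ℂ) f (bphase X r cc φ)) Y hY
  have h2 : ∀ y < Y, ∀ y' < Y,
      ‖form S c 1 (fun x => f0 (x + (y : ZMod N)) * conj (f0 (x + (y' : ZMod N))))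
        (fun i x => (Fin.snoc (α := fun _ => ZMod N → ℂ) f (bphase X r cc φ) i) (x + (y : ZMod N)) *
          conj ((Fin.snoc (α := fun _ => ZMod N → ℂ) f (bphase X r cc φ) i)
            (x + (y' : ZMod N))))‖ ≤
      (δ6 + nrm (A L (Gf64 X r cc φ y y')) / δT) + 4 * Y / X := by
    intro y hy y' hy'
    have e1 : (fun (i : Fin (m + 1)) (x : ZMod N) =>
        (Fin.snoc (α := fun _ => ZMod N → ℂ) f (bphase X r cc φ) i) (x + (y : ZMod N)) *
          conj ((Fin.snoc (α := fun _ => ZMod N → ℂ) f (bphase X r cc φ) i)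
            (x + (y' : ZMod N)))) =
        Fin.snoc (α := fun _ => ZMod N → ℂ)
          (fun i x => f i (x + (y : ZMod N)) * conj (f i (x + (y' : ZMod N))))
          (fun x => bphase X r cc φ (x + (y : ZMod N)) *
            conj (bphase X r cc φ (x + (y' : ZMod N)))) := by
      funext i
      refine Fin.lastCases ?_ (fun i => ?_) i
      · rw [Fin.snoc_last, Fin.snoc_last]
      · rw [Fin.snoc_castSucc, Fin.snoc_castSucc]
    rw [e1]
    have hb0 : ∀ x, ‖f0 (x + (y : ZMod N)) * conj (f0 (x + (y' : ZMod N)))‖ ≤ 1 := fun x => by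
      rw [norm_mul, Complex.norm_conj]
      exact mul_le_one₀ (hf0 _) (norm_nonneg _) (hf0 _)
    have hb : ∀ (i : Fin m) x, ‖f i (x + (y : ZMod N)) * conj (f i (x + (y' : ZMod N)))‖ ≤ 1 :=
      fun i x => by
        rw [norm_mul, Complex.norm_conj]
        exact mul_le_one₀ (hf i _) (norm_nonneg _) (hf i _)
    refine (snoc_sub64 S c _ hb0 _ hb _ (Gf64 X r cc φ y y')).trans ?_
    refine add_le_add ?_ (nrm_diff64 hX hXN r hcc φ hy hy')
    by_cases hc : δ6 ≤ ‖form S c 1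
        (fun x => f0 (x + (y : ZMod N)) * conj (f0 (x + (y' : ZMod N))))
        (Fin.snoc (α := fun _ => ZMod N → ℂ)
          (fun i x => f i (x + (y : ZMod N)) * conj (f i (x + (y' : ZMod N))))
          (Gf64 X r cc φ y y'))‖
    · have h3 := hG y hy y' hy' hc
      have h4 : 1 ≤ nrm (A L (Gf64 X r cc φ y y')) / δT := by rwa [le_div_iff₀ hδT, one_mul]
      have h5 := norm_form_le_one S c 1 (fun _ => by simp) _ hb0 _
        (snoc_bdd64 hb (u := Gf64 X r cc φ y y') fun x => norm_gcoef64 hcc φ y y' _)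
      linarith
    · have h3 : 0 ≤ nrm (A L (Gf64 X r cc φ y y')) / δT := div_nonneg (nrm_nonneg _) hδT.le
      have := not_le.1 hc
      linarith
  -- step 2
  have h3 : δ1 ^ 2 ≤ 𝔼 y ∈ range Y, 𝔼 y' ∈ range Y,
      ((δ6 + nrm (A L (Gf64 X r cc φ y y')) / δT) + 4 * Y / X) := by
    refine (pow_le_pow_left₀ hδ1 h 2).trans (h1.trans ?_)
    exact expect_le_expect fun y hy => expect_le_expect fun y' hy' =>
      h2 y (mem_range.1 hy) y' (mem_range.1 hy')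
  set M := 𝔼 y ∈ range Y, 𝔼 y' ∈ range Y, nrm (A L (Gf64 X r cc φ y y')) with hM
  have h4 : 𝔼 y ∈ range Y, 𝔼 y' ∈ range Y,
      ((δ6 + nrm (A L (Gf64 X r cc φ y y')) / δT) + 4 * Y / X) = δ6 + M / δT + 4 * Y / X := by
    simp_rw [expect_add_distrib, expect_const hne, ← expect_div]
    rfl
  rw [h4] at h3
  have h5 : δT * (δ1 ^ 2 - 4 * Y / X - δ6) ≤ M := by
    have h6 : δ1 ^ 2 - 4 * Y / X - δ6 ≤ M / δT := by linarith
    rw [le_div_iff₀ hδT] at h6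
    linarith
  -- step 3
  have h6 : M ^ 2 ≤ 𝔼 y ∈ range Y, 𝔼 y' ∈ range Y, 𝔼 z : ZMod N,
      ‖A L (Gf64 X r cc φ y y') z‖ ^ 2 := by
    rw [hM]
    refine (sq_expect_le64 _ _).trans (expect_le_expect fun y _ => ?_)
    refine (sq_expect_le64 _ _).trans (expect_le_expect fun y' _ => ?_)
    exact sq_expect_le64 _ _
  have h7 : 𝔼 y ∈ range Y, 𝔼 y' ∈ range Y, 𝔼 z : ZMod N, ‖A L (Gf64 X r cc φ y y') z‖ ^ 2 =
      𝔼 z : ZMod N, 𝔼 y ∈ range Y, 𝔼 y' ∈ range Y, ‖A L (Gf64 X r cc φ y y') z‖ ^ 2 := by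
    rw [expect_comm (s := (univ : Finset (ZMod N))) (t := range Y)]
    exact expect_congr rfl fun y _ => expect_comm _ _ _
  have h8 : 𝔼 z : ZMod N, 𝔼 y ∈ range Y, 𝔼 y' ∈ range Y, ‖A L (Gf64 X r cc φ y y') z‖ ^ 2 ≤
      𝔼 z : ZMod N, 𝔼 w ∈ range L, 𝔼 w' ∈ range L,
        (ind64 X r cc φ w0 (z + (w : ZMod N)) (z + (w' : ZMod N)) + (1 / (2 * Y * w0)) ^ 2) :=
    expect_le_expect fun z _ => expand64 r hcc φ hY L hw0 hφ z
  have h9 : 𝔼 z : ZMod N, 𝔼 w ∈ range L, 𝔼 w' ∈ range L,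
        (ind64 X r cc φ w0 (z + (w : ZMod N)) (z + (w' : ZMod N)) + (1 / (2 * Y * w0)) ^ 2) ≤
      (𝔼 z : ZMod N, 𝔼 w ∈ range L, 𝔼 w' ∈ range L,
        ind64 X r cc φ w0 (z + (w : ZMod N)) (z + (w' : ZMod N))) + (1 / (2 * Y * w0)) ^ 2 := by
    simp_rw [expect_add_distrib]
    refine add_le_add le_rfl ?_
    refine expect_le_of5 _ _ (by positivity) fun z _ => ?_
    refine expect_le_of5 _ _ (by positivity) fun w _ => ?_
    exact expect_le_of5 _ _ (by positivity) fun w' _ => le_rfl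
  refine (pow_le_pow_left₀ (mul_nonneg hδT.le hpos) h5 2).trans (h6.trans ?_)
  rw [h7]
  exact h8.trans h9

end Form64

end

end Pool.Agent.Helper57.NX
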